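import Mathlib

set_option autoImplicit false

open Matrix Filter Topology

namespace Pool.Agent.W5h51.SO

open scoped ENNReal

section

attribute [local instance] Matrix.linftyOpNormedAddCommGroup Matrix.linftyOpNormedSpace
  Matrix.linftyOpNormedRing Matrix.linftyOpNormedAlgebra

/-- If all eigenvalues of `R` have modulus greater than one then the powers of the inverse tend to
zero. -/
theorem pow_inv_tendsto {d : ℕ} [NeZero d] (R : Matrix (Fin d) (Fin d) ℂ)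
    (h : ∀ z : ℂ, R.charpoly.IsRoot z → 1 < ‖z‖) :
    IsUnit R ∧ Tendsto (fun n : ℕ => (R⁻¹) ^ n) atTop (𝓝 0) := by
  have hU : IsUnit R := by
    by_contra hc
    have h0 : (0 : ℂ) ∈ spectrum ℂ R := by
      rw [spectrum.zero_mem_iff]
      exact hc
    rw [Matrix.mem_spectrum_iff_isRoot_charpoly] at h0
    have := h 0 h0
    simp at this
    linarith
  refine ⟨hU, ?_⟩
  obtain ⟨u, hu⟩ := hU
  have hinv : R⁻¹ = ((u⁻¹ : (Matrix (Fin d) (Fin d) ℂ)ˣ) : Matrix (Fin d) (Fin d) ℂ) := by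
    rw [← hu, Matrix.coe_units_inv]
  have : CompleteSpace (Matrix (Fin d) (Fin d) ℂ) := FiniteDimensional.complete ℂ _
  have hne : Nontrivial (Matrix (Fin d) (Fin d) ℂ) := inferInstance
  have hsr : spectralRadius ℂ (R⁻¹) < 1 := by
    obtain ⟨k, hk, hk'⟩ := spectrum.exists_nnnorm_eq_spectralRadius (R⁻¹)
    rw [← hk']
    have hk0 : k ≠ 0 := by
      rintro rfl
      rw [hinv, spectrum.zero_mem_iff] at hk
      exact hk (Units.isUnit _)
    have h2 : (k⁻¹ : ℂ) ∈ spectrum ℂ R := by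
      have := (spectrum.inv_mem_iff (R := ℂ) (A := Matrix (Fin d) (Fin d) ℂ)
        (r := Units.mk0 k hk0) (a := u⁻¹)).1 (by rw [← hinv]; exact hk)
      rw [inv_inv, hu] at this
      simpa using this
    rw [Matrix.mem_spectrum_iff_isRoot_charpoly] at h2
    have h3 := h _ h2
    rw [norm_inv] at h3
    have h4 : ‖k‖ < 1 := by
      have h5 : 0 < ‖k‖ := norm_pos_iff.2 hk0
      by_contra hc
      push Not at hc
      have := inv_le_one_of_one_le₀ hc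
      linarith
    have h5 : ‖k‖₊ < 1 := h4
    exact_mod_cast h5
  -- Gelfand
  obtain ⟨ρ, hρ1, hρ2⟩ := ENNReal.lt_iff_exists_nnreal_btwn.1 hsr
  have hg := spectrum.pow_nnnorm_pow_one_div_tendsto_nhds_spectralRadius (R⁻¹)
  have hev := hg.eventually (gt_mem_nhds hρ1)
  have hρ' : ρ < 1 := by exact_mod_cast hρ2
  refine tendsto_zero_iff_norm_tendsto_zero.2 ?_
  have hpow : Tendsto (fun n : ℕ => (ρ : ℝ) ^ n) atTop (𝓝 0) :=
    tendsto_pow_atTop_nhds_zero_of_lt_one ρ.2 (by exact_mod_cast hρ')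
  refine squeeze_zero' (Eventually.of_forall fun n => norm_nonneg _) ?_ hpow
  filter_upwards [hev, eventually_gt_atTop 0] with n hn hn0
  have hn0' : (n : ℝ) ≠ 0 := by positivity
  have h6 : (‖(R⁻¹) ^ n‖₊ : ℝ≥0∞) ≤ (ρ : ℝ≥0∞) ^ n := by
    have h7 : ((‖(R⁻¹) ^ n‖₊ : ℝ≥0∞) ^ (1 / n : ℝ)) ^ (n : ℝ) ≤ (ρ : ℝ≥0∞) ^ (n : ℝ) :=
      ENNReal.rpow_le_rpow hn.le (Nat.cast_nonneg n)
    rw [← ENNReal.rpow_mul, one_div, inv_mul_cancel₀ hn0', ENNReal.rpow_one,
      ENNReal.rpow_natCast] at h7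
    exact h7
  have h8 : ‖(R⁻¹) ^ n‖₊ ≤ ρ ^ n := by exact_mod_cast h6
  exact_mod_cast h8

end

/-- The real inverse of an expanding integer matrix. -/
theorem int_expanding {d : ℕ} (R : Matrix (Fin d) (Fin d) ℤ)
    (h : ∀ z : ℂ, (R.map (Int.castRingHom ℂ)).charpoly.IsRoot z → 1 < ‖z‖) :
    (R.map (Int.castRingHom ℝ))⁻¹ * R.map (Int.castRingHom ℝ) = 1 ∧
    R.map (Int.castRingHom ℝ) * (R.map (Int.castRingHom ℝ))⁻¹ = 1 ∧
    ∀ x : Fin d → ℝ, Tendsto (fun n : ℕ => ((R.map (Int.castRingHom ℝ))⁻¹ ^ n) *ᵥ x) atTop (𝓝 0) := by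
  rcases Nat.eq_zero_or_pos d with rfl | hd
  · refine ⟨Subsingleton.elim _ _, Subsingleton.elim _ _, fun x => ?_⟩
    have : (fun n : ℕ => ((R.map (Int.castRingHom ℝ))⁻¹ ^ n) *ᵥ x) = fun _ => 0 := by
      funext n
      exact Subsingleton.elim _ _
    rw [this]
    exact tendsto_const_nhds
  have : NeZero d := ⟨hd.ne'⟩
  set A : Matrix (Fin d) (Fin d) ℝ := R.map (Int.castRingHom ℝ) with hA
  have hmap : R.map (Int.castRingHom ℂ) = A.map (algebraMap ℝ ℂ) := by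
    ext i j
    simp [hA]
  rw [hmap] at h
  obtain ⟨hU, hT⟩ := pow_inv_tendsto _ h
  have hdetC : (A.map (algebraMap ℝ ℂ)).det = algebraMap ℝ ℂ A.det := by
    rw [RingHom.map_det]
    rfl
  have hdet : IsUnit A.det := by
    rw [Matrix.isUnit_iff_isUnit_det, hdetC] at hU
    rw [isUnit_iff_ne_zero] at hU ⊢
    intro h0
    apply hU
    rw [h0]
    simp
  have e1 : A⁻¹ * A = 1 := Matrix.nonsing_inv_mul _ hdet
  have e2 : A * A⁻¹ = 1 := Matrix.mul_nonsing_inv _ hdet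
  refine ⟨e1, e2, fun x => ?_⟩
  have hinv : (A.map (algebraMap ℝ ℂ))⁻¹ = A⁻¹.map (algebraMap ℝ ℂ) := by
    apply Matrix.inv_eq_left_inv
    rw [← Matrix.map_mul, e1]
    simp
  have hpow : ∀ n : ℕ, (A.map (algebraMap ℝ ℂ))⁻¹ ^ n = (A⁻¹ ^ n).map (algebraMap ℝ ℂ) := by
    intro n
    rw [hinv]
    exact ((algebraMap ℝ ℂ).mapMatrix.map_pow (A⁻¹) n).symm
  rw [tendsto_pi_nhds]
  intro i
  have h1 : ∀ j, Tendsto (fun n : ℕ => (A⁻¹ ^ n) i j) atTop (𝓝 0) := by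
    intro j
    have h2 : Tendsto (fun n : ℕ => ((A.map (algebraMap ℝ ℂ))⁻¹ ^ n) i j) atTop (𝓝 0) := by
      have := (tendsto_pi_nhds.1 (tendsto_pi_nhds.1 hT i) j)
      exact this
    have h3 : Tendsto (fun n : ℕ => (((A⁻¹ ^ n) i j : ℝ) : ℂ)) atTop (𝓝 ((0 : ℝ) : ℂ)) := by
      simp only [Complex.ofReal_zero]
      refine h2.congr fun n => ?_
      rw [hpow n]
      rfl
    have h4 := (Complex.continuous_re.tendsto _).comp h3
    simpa [Function.comp_def] using h4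
  simp only [Matrix.mulVec, dotProduct, Pi.zero_apply]
  have h5 : Tendsto (fun n : ℕ => ∑ j, (A⁻¹ ^ n) i j * x j) atTop (𝓝 (∑ j, 0 * x j)) :=
    tendsto_finsetSum _ fun j _ => (h1 j).mul_const _
  simpa using h5

end Pool.Agent.W5h51.SO
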