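import Pool.Agent.W5h51.SO.Main
import Pool.Agent.W5h51.SO.Exp

set_option autoImplicit false
set_option linter.unusedSectionVars false

open Filter Topology Set MeasureTheory

namespace Pool.Agent.W5h51.SO

section

variable {d : ℕ} {A : (Fin d → ℝ) →ₗ[ℝ] (Fin d → ℝ)} {Ri : (Fin d → ℤ) →+ (Fin d → ℤ)}
  {B : Finset (Fin d → ℤ)} {μ : Measure (Fin d → ℝ)} {T : Set (Fin d → ℝ)}

/-- the relative positions in `K` of the words of the same length as `u` -/
noncomputable def nb (Ri : (Fin d → ℤ) →+ (Fin d → ℤ)) (B : Finset (Fin d → ℤ))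
    (K : Finset (Fin d → ℤ)) (u : List (Fin d → ℤ)) : Finset (Fin d → ℤ) := by
  classical
  exact K.filter fun s => ∃ w ∈ words B u.length, pos Ri w = pos Ri u + s

theorem mem_nb {K : Finset (Fin d → ℤ)} {u : List (Fin d → ℤ)} {s : Fin d → ℤ} :
    s ∈ nb Ri B K u ↔ s ∈ K ∧ ∃ w ∈ words B u.length, pos Ri w = pos Ri u + s := by
  classical
  unfold nb
  rw [Finset.mem_filter]

theorem nb_mono {K : Finset (Fin d → ℤ)} {u v : List (Fin d → ℤ)} (hv : ∀ b ∈ v, b ∈ B) :
    nb Ri B K u ⊆ nb Ri B K (v ++ u) := by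
  intro s hs
  rw [mem_nb] at hs ⊢
  obtain ⟨h1, w, hw, hp⟩ := hs
  refine ⟨h1, v ++ w, ?_, ?_⟩
  · rw [List.length_append]
    exact append_mem_words B ((mem_words B).2 ⟨rfl, hv⟩) hw
  · rw [pos_append, pos_append, ((mem_words B).1 hw).1, hp, add_assoc]

/-- a word with the greatest number of neighbours -/
theorem exists_max (_hB : B.Nonempty) (K : Finset (Fin d → ℤ)) :
    ∃ u : List (Fin d → ℤ), (∀ b ∈ u, b ∈ B) ∧
      ∀ v : List (Fin d → ℤ), (∀ b ∈ v, b ∈ B) → nb Ri B K (v ++ u) = nb Ri B K u := by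
  classical
  let S := {u : List (Fin d → ℤ) // ∀ b ∈ u, b ∈ B}
  have : Nonempty S := ⟨⟨[], by simp⟩⟩
  let f : S → ℕ := fun u => K.card - (nb Ri B K u.1).card
  obtain ⟨u, hu⟩ : ∃ u : S, ∀ v : S, f u ≤ f v := ⟨Function.argmin f, fun v =>
    Function.argmin_le f v⟩
  refine ⟨u.1, u.2, fun v hv => ?_⟩
  symm
  apply Finset.eq_of_subset_of_card_le (nb_mono hv)
  have h1 := hu ⟨v ++ u.1, by
    intro b hb
    rcases List.mem_append.1 hb with h | h
    · exact hv _ h
    · exact u.2 _ h⟩
  simp only [f] at h1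
  have h2 : ∀ w : List (Fin d → ℤ), (nb Ri B K w).card ≤ K.card := by
    intro w
    apply Finset.card_le_card
    intro s hs
    exact (mem_nb.1 hs).1
  have h3 := h2 (v ++ u.1)
  have h4 := h2 u.1
  omega

/-- the integer vectors close to `0` -/
theorem exists_window (hT : IsCompact T) : ∃ K : Finset (Fin d → ℤ), ∀ s : Fin d → ℤ,
    ∀ t ∈ T, ∀ t' ∈ T, cst d s = t - t' → s ∈ K := by
  obtain ⟨C, hC⟩ := (hT.isBounded.sub hT.isBounded).exists_norm_le
  obtain ⟨M, hM⟩ := exists_nat_ge C
  refine ⟨Finset.Icc (fun _ => -(M : ℤ)) (fun _ => (M : ℤ)), fun s t ht t' ht' h => ?_⟩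
  have h1 : ‖t - t'‖ ≤ C := hC _ (sub_mem_sub ht ht')
  rw [← h] at h1
  have h2 : ∀ i, |(s i : ℝ)| ≤ M := by
    intro i
    have := norm_le_pi_norm (cst d s) i
    have h3 : ‖cst d s i‖ = |(s i : ℝ)| := rfl
    rw [h3] at this
    linarith
  rw [Finset.mem_Icc]
  constructor
  · intro i
    have := (abs_le.1 (h2 i)).1
    exact_mod_cast this
  · intro i
    have := (abs_le.1 (h2 i)).2
    exact_mod_cast this

/-- `Y` does not meet the cylinders whose address ends with `u`. -/
def Avoid (A : (Fin d → ℝ) →ₗ[ℝ] (Fin d → ℝ)) (B : Finset (Fin d → ℤ)) (T : Set (Fin d → ℝ))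
    (u : List (Fin d → ℤ)) (Y : Set (Fin d → ℝ)) : Prop :=
  ∀ v : List (Fin d → ℤ), (∀ b ∈ v, b ∈ B) → ∀ t ∈ T, tau A (cst d) (v ++ u) t ∉ Y

theorem Sys.avoid_null (h : Sys A Ri B μ T) {u : List (Fin d → ℤ)} (hu : ∀ b ∈ u, b ∈ B)
    {Y : Set (Fin d → ℝ)} (hY : MeasurableSet Y) (ha : Avoid A B T u Y) : μ Y = 0 := by
  have := h.prob
  classical
  have huw : u ∈ words B u.length := (mem_words B).2 ⟨rfl, hu⟩
  set N : ENNReal := (B.card : ENNReal) with hN
  set θ : ENNReal := (N⁻¹) ^ u.length * (((words B u.length).erase u).card : ENNReal) with hθ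
  have hθ1 : θ < 1 := by
    have h1 : ((words B u.length).erase u).card < B.card ^ u.length := by
      rw [Finset.card_erase_of_mem huw, card_words]
      have : 0 < B.card ^ u.length := pow_pos h.Bne.card_pos _
      omega
    have h2 : (((words B u.length).erase u).card : ENNReal) < N ^ u.length := by
      rw [hN]
      exact_mod_cast h1
    have h3 : (N⁻¹) ^ u.length * N ^ u.length = 1 := by
      rw [← mul_pow, h.cc, one_pow]
    rw [hθ, ← h3]
    have hN0 : (N⁻¹) ^ u.length ≠ 0 :=
      pow_ne_zero _ (ENNReal.inv_ne_zero.2 (ENNReal.natCast_ne_top _))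
    have hNt : (N⁻¹) ^ u.length ≠ ⊤ := ENNReal.pow_ne_top (ENNReal.inv_ne_top.2 h.cardne)
    exact (ENNReal.mul_lt_mul_iff_right hN0 hNt).2 h2
  have key : ∀ (j : ℕ) (Y : Set (Fin d → ℝ)), MeasurableSet Y → Avoid A B T u Y → μ Y ≤ θ ^ j := by
    intro j
    induction j with
    | zero =>
      intro Y _ _
      rw [pow_zero]
      exact prob_le_one
    | succ j ih =>
      intro Y hY ha
      rw [h.iter u.length Y hY, ← Finset.add_sum_erase _ _ huw]
      have h1 : μ (tau A (cst d) u ⁻¹' Y) = 0 := by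
        refine measure_mono_null (fun x hx => ?_) h.full
        intro hxT
        exact ha [] (by simp) x hxT (by simpa using hx)
      rw [h1, zero_add]
      have h2 : ∀ w ∈ (words B u.length).erase u, μ (tau A (cst d) w ⁻¹' Y) ≤ θ ^ j := by
        intro w hw
        have hw' := (mem_words B).1 (Finset.mem_of_mem_erase hw)
        refine ih _ ((continuous_tau w).measurable hY) ?_
        intro v hv t ht hmem
        refine ha (w ++ v) ?_ t ht ?_
        · intro b hb
          rcases List.mem_append.1 hb with h' | h'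
          · exact hw'.2 _ h'
          · exact hv _ h'
        · rw [List.append_assoc, tau_append]
          exact hmem
      calc (N⁻¹) ^ u.length * ∑ w ∈ (words B u.length).erase u, μ (tau A (cst d) w ⁻¹' Y)
          ≤ (N⁻¹) ^ u.length * ∑ w ∈ (words B u.length).erase u, θ ^ j :=
            mul_le_mul' le_rfl (Finset.sum_le_sum h2)
        _ = θ ^ (j + 1) := by
            rw [Finset.sum_const, nsmul_eq_mul, ← mul_assoc, ← hθ, pow_succ']
  have hlim := ENNReal.tendsto_pow_atTop_nhds_zero_of_lt_one hθ1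
  exact le_antisymm (ge_of_tendsto' hlim fun j => key j Y hY ha) (zero_le)

/-- A spectral self-affine measure has no overlap. -/
theorem Sys.no_overlap (h : Sys A Ri B μ T) (hs : IsSpectral μ) {b b' : Fin d → ℤ} (hb : b ∈ B)
    (hb' : b' ∈ B) (hne : b ≠ b') :
    μ ((fun x => A (x + cst d b)) '' T ∩ (fun x => A (x + cst d b')) '' T) = 0 := by
  have hAc : Continuous A := LinearMap.continuous_of_finiteDimensional A
  have hfc : ∀ b : Fin d → ℤ, Continuous fun x => A (x + cst d b) := fun b =>
    hAc.comp (continuous_id.add continuous_const)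
  have hAn : ∀ k : ℕ, Function.Injective ⇑(A ^ k) := fun k => by
    rw [Module.End.coe_pow]
    exact h.inj.iterate k
  obtain ⟨K, hK⟩ := exists_window (d := d) h.compact
  obtain ⟨u, hu, hmax⟩ := exists_max (Ri := Ri) h.Bne K
  -- cylinders ending with `u` stay away from the other pieces
  have hdisj : ∀ b ∈ B, ∀ b' ∈ B, b ≠ b' → ∀ v : List (Fin d → ℤ), (∀ b ∈ v, b ∈ B) → ∀ t ∈ T,
      ∀ t' ∈ T, A (tau A (cst d) (v ++ u) t + cst d b) ≠ A (t' + cst d b') := by
    intro b hb b' hb' hne v hv t ht t' ht' heq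
    obtain ⟨w, hw, t'', ht'', rfl⟩ := h.cover (v ++ u).length ht'
    have hwl := ((mem_words B).1 hw)
    have hbv : ∀ c ∈ b :: v, c ∈ B := by
      intro c hc
      rcases List.mem_cons.1 hc with rfl | hc
      · exact hb
      · exact hv _ hc
    -- both sides as cylinders of the same length
    have e1 : tau A (cst d) (b :: (v ++ u)) t = tau A (cst d) (b' :: w) t'' := heq
    rw [tau_eq h.comp, tau_eq h.comp] at e1
    have hl : (b :: (v ++ u)).length = (b' :: w).length := by
      simp only [List.length_cons, hwl.1]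
    rw [hl] at e1
    have e2 := hAn _ e1
    set s : Fin d → ℤ := pos Ri (b' :: w) - pos Ri (b :: (v ++ u)) with hs'
    have e3 : cst d s = t - t'' := by
      rw [hs', map_sub]
      rw [sub_eq_sub_iff_add_eq_add, add_comm, ← e2]
      
    have e4 : s ∈ nb Ri B K ((b :: v) ++ u) := by
      rw [mem_nb]
      refine ⟨hK s t ht t'' ht'' e3, b' :: w, ?_, ?_⟩
      · rw [mem_words]
        refine ⟨?_, ?_⟩
        · simp only [List.length_cons, hwl.1, List.cons_append]
        · intro c hc
          rcases List.mem_cons.1 hc with rfl | hc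
          · exact hb'
          · exact hwl.2 _ hc
      · rw [hs', List.cons_append]
        abel
    rw [hmax (b :: v) hbv, mem_nb] at e4
    obtain ⟨-, w₁, hw₁, hp⟩ := e4
    have e5 : pos Ri ((b :: v) ++ w₁) = pos Ri (b' :: w) := by
      rw [pos_append, ((mem_words B).1 hw₁).1, hp, ← add_assoc, ← pos_append, List.cons_append, hs']
      abel
    have e6 := h.distinct hs ((b' :: w).length) (w := (b :: v) ++ w₁) (w' := b' :: w) (by
        rw [mem_words]
        refine ⟨?_, ?_⟩
        · rw [← hl]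
          simp only [List.length_append, List.length_cons, ((mem_words B).1 hw₁).1]
          omega
        · intro c hc
          rcases List.mem_append.1 hc with hc | hc
          · exact hbv _ hc
          · exact ((mem_words B).1 hw₁).2 _ hc) (by
        rw [mem_words]
        refine ⟨rfl, ?_⟩
        intro c hc
        rcases List.mem_cons.1 hc with rfl | hc
        · exact hb'
        · exact hwl.2 _ hc) e5
    rw [List.cons_append, List.cons.injEq] at e6
    exact hne e6.1
  have hmeas : ∀ b : Fin d → ℤ, MeasurableSet ((fun x => A (x + cst d b)) '' T) := fun b =>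
    ((h.compact.image (hfc b)).isClosed).measurableSet
  rw [h.self _ ((hmeas b).inter (hmeas b'))]
  have hzero : ∀ c ∈ B, μ ((fun x => A (x + cst d c)) ⁻¹'
      ((fun x => A (x + cst d b)) '' T ∩ (fun x => A (x + cst d b')) '' T)) = 0 := by
    intro c hc
    have hnull : ∀ e ∈ B, c ≠ e → μ ((fun x => A (x + cst d c)) ⁻¹'
        ((fun x => A (x + cst d e)) '' T)) = 0 := by
      intro e he hce
      refine h.avoid_null hu ((hfc c).measurable (hmeas e)) ?_
      intro v hv t ht hmem
      obtain ⟨t', ht', heq⟩ := hmem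
      exact hdisj c hc e he hce v hv t ht t' ht' heq.symm
    by_cases hcb : c = b
    · subst hcb
      exact measure_mono_null (preimage_mono inter_subset_right) (hnull b' hb' hne)
    · exact measure_mono_null (preimage_mono inter_subset_left) (hnull b hb hcb)
  rw [Finset.sum_eq_zero hzero, mul_zero]

end

end Pool.Agent.W5h51.SO
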