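import Mathlib

set_option autoImplicit false

open Filter Topology Set MeasureTheory

namespace Pool.Agent.W5h51.SO

/-- the character `x ↦ exp (2 π i ⟨l, x⟩)` -/
noncomputable def chr {d : ℕ} (l x : Fin d → ℝ) : ℂ :=
  Complex.exp (2 * Real.pi * Complex.I * ((∑ i, l i * x i : ℝ) : ℂ))

theorem chr_add {d : ℕ} (l x y : Fin d → ℝ) : chr l (x + y) = chr l x * chr l y := by
  unfold chr
  rw [← Complex.exp_add]
  congr 1
  rw [← mul_add]
  congr 1
  rw [← Complex.ofReal_add]
  congr 1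
  rw [← Finset.sum_add_distrib]
  refine Finset.sum_congr rfl fun i _ => ?_
  simp only [Pi.add_apply]
  ring

theorem norm_chr {d : ℕ} (l x : Fin d → ℝ) : ‖chr l x‖ = 1 := by
  unfold chr
  have : (2 * Real.pi * Complex.I * ((∑ i, l i * x i : ℝ) : ℂ)) =
      ((2 * Real.pi * ∑ i, l i * x i : ℝ) : ℂ) * Complex.I := by
    push_cast
    ring
  rw [this, Complex.norm_exp_ofReal_mul_I]

theorem continuous_chr {d : ℕ} (l : Fin d → ℝ) : Continuous (chr l) := by
  unfold chr
  fun_prop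

/-- `μ` has an orthonormal basis of exponentials. -/
def IsSpectral {d : ℕ} (μ : Measure (Fin d → ℝ)) : Prop :=
  ∃ (Λ : Set (Fin d → ℝ)) (e : Λ → Lp ℂ 2 μ), (∀ l : Λ, (e l : (Fin d → ℝ) → ℂ) =ᵐ[μ] chr l) ∧
    Orthonormal ℂ e ∧ (Submodule.span ℂ (Set.range e)).topologicalClosure = ⊤

/-- Parseval -/
theorem parseval_eq {H ι : Type*} [NormedAddCommGroup H] [InnerProductSpace ℂ H] [CompleteSpace H]
    (e : ι → H) (he : Orthonormal ℂ e) (hs : (Submodule.span ℂ (Set.range e)).topologicalClosure = ⊤)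
    (f g : H) (h : ∀ i, ‖(inner ℂ (e i) f : ℂ)‖ = ‖(inner ℂ (e i) g : ℂ)‖) : ‖f‖ = ‖g‖ := by
  let b := HilbertBasis.mk he hs.ge
  have hb : ∀ i, b i = e i := fun i => by
    simp [b]
  have key : ∀ u : H, ‖u‖ ^ 2 = ∑' i, ‖(inner ℂ (e i) u : ℂ)‖ ^ 2 := by
    intro u
    have h1 := b.tsum_inner_mul_inner u u
    have h2 : ∀ i, (inner ℂ u (b i) : ℂ) * inner ℂ (b i) u = ((‖(inner ℂ (e i) u : ℂ)‖ ^ 2 : ℝ) : ℂ) := by
      intro i
      rw [← inner_conj_symm u (b i), hb, mul_comm, Complex.mul_conj, Complex.normSq_eq_norm_sq]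
    simp_rw [h2] at h1
    rw [← Complex.ofReal_tsum, inner_self_eq_norm_sq_to_K] at h1
    have h3 : ((∑' i, ‖(inner ℂ (e i) u : ℂ)‖ ^ 2 : ℝ) : ℂ) = ((‖u‖ ^ 2 : ℝ) : ℂ) := by
      rw [h1]
      push_cast
      rfl
    exact (Complex.ofReal_injective h3).symm
  have h3 : ‖f‖ ^ 2 = ‖g‖ ^ 2 := by
    rw [key f, key g]
    exact tsum_congr fun i => by rw [h i]
  exact (sq_eq_sq₀ (norm_nonneg f) (norm_nonneg g)).1 h3

theorem norm_sq_toLp {α : Type*} [MeasurableSpace α] {μ : Measure α} {f : α → ℂ}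
    (hf : MemLp f 2 μ) : ‖hf.toLp f‖ ^ 2 = ∫ x, ‖f x‖ ^ 2 ∂μ := by
  have h1 : ((‖hf.toLp f‖ ^ 2 : ℝ) : ℂ) = ((∫ x, ‖f x‖ ^ 2 ∂μ : ℝ) : ℂ) := by
    have h2 := inner_self_eq_norm_sq_to_K (𝕜 := ℂ) (hf.toLp f)
    have h3 : (((‖hf.toLp f‖ ^ 2 : ℝ)) : ℂ) = (inner ℂ (hf.toLp f) (hf.toLp f) : ℂ) := by
      rw [h2]
      push_cast
      rfl
    rw [h3, L2.inner_def]
    refine Eq.trans ?_ (integral_ofReal (𝕜 := ℂ))
    apply integral_congr_ae
    filter_upwards [hf.coeFn_toLp] with x hx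
    rw [hx, inner_self_eq_norm_sq_to_K]
    push_cast
    rfl
  exact Complex.ofReal_injective h1

theorem inner_toLp {d : ℕ} {μ : Measure (Fin d → ℝ)} (l : Fin d → ℝ) (e : Lp ℂ 2 μ)
    (he : (e : (Fin d → ℝ) → ℂ) =ᵐ[μ] chr l) {f : (Fin d → ℝ) → ℂ} (hf : MemLp f 2 μ) :
    (inner ℂ e (hf.toLp f) : ℂ) = ∫ x, f x * (starRingEnd ℂ) (chr l x) ∂μ := by
  rw [L2.inner_def]
  apply integral_congr_ae
  filter_upwards [hf.coeFn_toLp, he] with x hx hx'
  rw [hx, hx']
  rfl

/-- Local translation uniformity of spectral measures (in the form that is needed here). -/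
theorem uniform {d : ℕ} (μ : Measure (Fin d → ℝ)) [IsProbabilityMeasure μ] (hs : IsSpectral μ)
    (U : Set (Fin d → ℝ)) (hU : MeasurableSet U) (a : Fin d → ℝ)
    (h : ∀ s, MeasurableSet s → 2 * μ (U ∩ (fun x => x + a) ⁻¹' s) ≤ μ s) : μ U = 0 := by
  have hma : Measurable (fun x : Fin d → ℝ => x + a) := measurable_id.add_const a
  set ν : Measure (Fin d → ℝ) := (μ.restrict U).map (fun x => x + a) with hν
  have hν1 : ∀ s, MeasurableSet s → ν s = μ (U ∩ (fun x => x + a) ⁻¹' s) := by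
    intro s hs
    rw [hν, Measure.map_apply hma hs, Measure.restrict_apply (hma hs), inter_comm]
  have hνf : IsFiniteMeasure ν := by
    constructor
    rw [hν1 _ MeasurableSet.univ]
    exact measure_lt_top _ _
  set κ : Measure (Fin d → ℝ) := (2 : ENNReal) • ν with hκ
  have hκμ : κ ≤ μ := by
    rw [Measure.le_iff]
    intro s hs
    rw [hκ, Measure.smul_apply, smul_eq_mul, hν1 s hs]
    exact h s hs
  have hκf : IsFiniteMeasure κ := isFiniteMeasure_of_le μ hκμ
  have hac : κ ≪ μ := Measure.absolutelyContinuous_of_le hκμ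
  set q := κ.rnDeriv μ with hq
  have hq1 : q ≤ᵐ[μ] 1 := Measure.rnDeriv_le_one_of_le hκμ
  have hqm : Measurable q := Measure.measurable_rnDeriv _ _
  have hld : κ.HaveLebesgueDecomposition μ := Measure.haveLebesgueDecomposition_of_sigmaFinite κ μ
  -- the two functions
  have hf : MemLp (U.indicator fun _ => (1 : ℂ)) 2 μ :=
    memLp_indicator_const 2 hU 1 (Or.inr (measure_ne_top _ _))
  have hg : MemLp (fun x => (((q x).toReal / 2 : ℝ) : ℂ)) 2 μ := by
    refine MemLp.of_bound ?_ 1 ?_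
    · exact (Complex.measurable_ofReal.comp (hqm.ennreal_toReal.div_const 2)).aestronglyMeasurable
    · filter_upwards [hq1] with x hx
      rw [Complex.norm_real, Real.norm_eq_abs, abs_of_nonneg (by positivity)]
      have : (q x).toReal ≤ 1 := by
        have := ENNReal.toReal_mono ENNReal.one_ne_top hx
        simpa using this
      linarith
  obtain ⟨Λ, e, he, ho, hsp⟩ := hs
  have hnorm : ‖hf.toLp _‖ = ‖hg.toLp _‖ := by
    refine parseval_eq e ho hsp _ _ fun l => ?_
    rw [inner_toLp _ _ (he l) hf, inner_toLp _ _ (he l) hg]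
    have e1 : ∫ x, (U.indicator (fun _ => (1 : ℂ)) x) * (starRingEnd ℂ) (chr (l : Fin d → ℝ) x) ∂μ =
        ∫ x in U, (starRingEnd ℂ) (chr (l : Fin d → ℝ) x) ∂μ := by
      rw [← integral_indicator hU]
      congr 1
      funext x
      by_cases hx : x ∈ U
      · simp [hx]
      · simp [hx]
    have e2 : ∫ x, (((q x).toReal / 2 : ℝ) : ℂ) * (starRingEnd ℂ) (chr (l : Fin d → ℝ) x) ∂μ =
        (starRingEnd ℂ) (chr (l : Fin d → ℝ) a) *
          ∫ x in U, (starRingEnd ℂ) (chr (l : Fin d → ℝ) x) ∂μ := by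
      have h1 : ∫ x, (q x).toReal • (starRingEnd ℂ) (chr (l : Fin d → ℝ) x) ∂μ =
          ∫ x, (starRingEnd ℂ) (chr (l : Fin d → ℝ) x) ∂κ := integral_rnDeriv_smul hac
      have h2 : ∫ x, (starRingEnd ℂ) (chr (l : Fin d → ℝ) x) ∂κ =
          2 * ∫ x, (starRingEnd ℂ) (chr (l : Fin d → ℝ) x) ∂ν := by
        rw [hκ, integral_smul_measure]
        simp
      have h3 : ∫ x, (starRingEnd ℂ) (chr (l : Fin d → ℝ) x) ∂ν =
          ∫ x in U, (starRingEnd ℂ) (chr (l : Fin d → ℝ) (x + a)) ∂μ := by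
        rw [hν, integral_map hma.aemeasurable]
        exact ((Complex.continuous_conj.comp (continuous_chr _))).aestronglyMeasurable
      have h4 : ∫ x, (((q x).toReal / 2 : ℝ) : ℂ) * (starRingEnd ℂ) (chr (l : Fin d → ℝ) x) ∂μ =
          (1 / 2) * ∫ x, (q x).toReal • (starRingEnd ℂ) (chr (l : Fin d → ℝ) x) ∂μ := by
        rw [← integral_const_mul]
        congr 1
        funext x
        rw [Complex.real_smul]
        push_cast
        ring
      rw [h4, h1, h2, h3, ← mul_assoc]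
      simp only [chr_add, map_mul]
      rw [integral_mul_const]
      ring
    rw [e1, e2, norm_mul, RCLike.norm_conj, norm_chr, one_mul]
  -- the norms
  have n1 : ‖hf.toLp _‖ ^ 2 = (μ U).toReal := by
    rw [norm_sq_toLp]
    have : (fun x => ‖U.indicator (fun _ => (1 : ℂ)) x‖ ^ 2) = U.indicator fun _ => (1 : ℝ) := by
      funext x
      by_cases hx : x ∈ U
      · simp [hx]
      · simp [hx]
    rw [this, integral_indicator hU]
    simp [Measure.real]
  have n2 : ‖hg.toLp _‖ ^ 2 ≤ (μ U).toReal / 2 := by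
    rw [norm_sq_toLp]
    have hint : Integrable (fun x => (q x).toReal) μ := Measure.integrable_toReal_rnDeriv
    have h5 : ∫ x, ‖(((q x).toReal / 2 : ℝ) : ℂ)‖ ^ 2 ∂μ ≤ ∫ x, (1 / 4) * (q x).toReal ∂μ := by
      apply integral_mono_ae
      · have := (memLp_two_iff_integrable_sq_norm hg.1).1 hg
        exact this
      · exact hint.const_mul _
      · filter_upwards [hq1] with x hx
        have h6 : (q x).toReal ≤ 1 := by
          have := ENNReal.toReal_mono ENNReal.one_ne_top hx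
          simpa using this
        have h7 : 0 ≤ (q x).toReal := ENNReal.toReal_nonneg
        rw [Complex.norm_real, Real.norm_eq_abs, abs_of_nonneg (by positivity)]
        nlinarith
    refine h5.trans ?_
    rw [integral_const_mul, hq, Measure.integral_toReal_rnDeriv hac]
    have h8 : κ.real univ = 2 * (μ U).toReal := by
      rw [Measure.real, hκ, Measure.smul_apply, smul_eq_mul, hν1 _ MeasurableSet.univ]
      simp
    rw [h8]
    linarith
  have n3 : (μ U).toReal ≤ (μ U).toReal / 2 := by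
    rw [← n1, hnorm]
    rw [← n1, hnorm] at n2
    exact n2
  have n4 : (μ U).toReal = 0 := by
    have : 0 ≤ (μ U).toReal := ENNReal.toReal_nonneg
    linarith
  rcases (ENNReal.toReal_eq_zero_iff _).1 n4 with h9 | h9
  · exact h9
  · exact absurd h9 (measure_ne_top _ _)

end Pool.Agent.W5h51.SO
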