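import Pool.Agent.W5h51.SO.Words
import Pool.Agent.W5h51.SO.Unif

set_option autoImplicit false
set_option linter.unusedSectionVars false

open Filter Topology Set MeasureTheory

namespace Pool.Agent.W5h51.SO

/-- the inclusion `ℤ^d → ℝ^d` -/
def cst (d : ℕ) : (Fin d → ℤ) →+ (Fin d → ℝ) where
  toFun b := fun i => (b i : ℝ)
  map_zero' := by ext; simp
  map_add' x y := by ext; simp

section

variable {d : ℕ} (A : (Fin d → ℝ) →ₗ[ℝ] (Fin d → ℝ)) (Ri : (Fin d → ℤ) →+ (Fin d → ℤ))
  (B : Finset (Fin d → ℤ)) (μ : Measure (Fin d → ℝ)) (T : Set (Fin d → ℝ))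

/-- The data of a self-affine measure and its attractor. -/
structure Sys : Prop where
  comp : ∀ z, A (cst d (Ri z)) = cst d z
  lim : ∀ x, Tendsto (fun n : ℕ => (A ^ n) x) atTop (𝓝 0)
  inj : Function.Injective A
  prob : IsProbabilityMeasure μ
  self : ∀ s, MeasurableSet s → μ s = (B.card : ENNReal)⁻¹ *
    ∑ b ∈ B, μ ((fun x => A (x + cst d b)) ⁻¹' s)
  compact : IsCompact T
  nonempty : T.Nonempty
  attr : T = ⋃ b ∈ B, (fun x => A (x + cst d b)) '' T

variable {A Ri B μ T}

theorem continuous_tau (w : List (Fin d → ℤ)) : Continuous (tau A (cst d) w) := by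
  induction w with
  | nil => exact continuous_id
  | cons b w ih =>
    have hc : Continuous A := LinearMap.continuous_of_finiteDimensional A
    exact hc.comp (ih.add continuous_const)

theorem Sys.Bne (h : Sys A Ri B μ T) : B.Nonempty := by
  obtain ⟨x, hx⟩ := h.nonempty
  rw [h.attr] at hx
  simp only [mem_iUnion] at hx
  obtain ⟨b, hb, -⟩ := hx
  exact ⟨b, hb⟩

theorem Sys.cardne (h : Sys A Ri B μ T) : (B.card : ENNReal) ≠ 0 := by
  have := h.Bne.card_pos
  exact_mod_cast this.ne'

theorem Sys.cc (h : Sys A Ri B μ T) : (B.card : ENNReal)⁻¹ * B.card = 1 :=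
  ENNReal.inv_mul_cancel h.cardne (ENNReal.natCast_ne_top _)

theorem Sys.iter (h : Sys A Ri B μ T) (n : ℕ) (s : Set (Fin d → ℝ)) (hs : MeasurableSet s) :
    μ s = ((B.card : ENNReal)⁻¹) ^ n * ∑ w ∈ words B n, μ (tau A (cst d) w ⁻¹' s) := by
  induction n generalizing s with
  | zero =>
    simp only [words, pow_zero, Finset.sum_singleton, one_mul]
    rfl
  | succ n ih =>
    rw [h.self s hs, sum_words_succ B n (fun w => μ (tau A (cst d) w ⁻¹' s)), pow_succ', mul_assoc]
    congr 1
    rw [Finset.mul_sum]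
    refine Finset.sum_congr rfl fun b _ => ?_
    have hm : MeasurableSet ((fun x => A (x + cst d b)) ⁻¹' s) := by
      have hc : Continuous A := LinearMap.continuous_of_finiteDimensional A
      exact (hc.comp (continuous_id.add continuous_const)).measurable hs
    rw [ih _ hm]
    rfl

theorem Sys.mapsT (h : Sys A Ri B μ T) {w : List (Fin d → ℤ)} (hw : ∀ b ∈ w, b ∈ B)
    {x : Fin d → ℝ} (hx : x ∈ T) : tau A (cst d) w x ∈ T := by
  induction w with
  | nil => exact hx
  | cons b w ih =>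
    have h1 := ih (fun b' hb' => hw b' (by simp [hb']))
    rw [h.attr]
    exact mem_iUnion₂.2 ⟨b, hw b (by simp), mem_image_of_mem _ h1⟩

theorem Sys.cover (h : Sys A Ri B μ T) (n : ℕ) {x : Fin d → ℝ} (hx : x ∈ T) :
    ∃ w ∈ words B n, ∃ y ∈ T, tau A (cst d) w y = x := by
  induction n generalizing x with
  | zero => exact ⟨[], by simp [words], x, hx, rfl⟩
  | succ n ih =>
    rw [h.attr] at hx
    obtain ⟨b, hb, y, hy, rfl⟩ := mem_iUnion₂.1 hx
    obtain ⟨w, hw, z, hz, rfl⟩ := ih hy
    exact ⟨b :: w, cons_mem_words B hb hw, z, hz, rfl⟩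

theorem Sys.full (h : Sys A Ri B μ T) : μ Tᶜ = 0 := by
  have := h.prob
  obtain ⟨t₀, ht₀⟩ := h.nonempty
  have hclosed : IsClosed T := h.compact.isClosed
  -- the mass far from `T`
  have key : ∀ ε : ℝ, 0 < ε → μ {x | ε ≤ Metric.infDist x T} = 0 := by
    intro ε hε
    have hmeas : MeasurableSet {x : Fin d → ℝ | ε ≤ Metric.infDist x T} :=
      (isClosed_le continuous_const (Metric.continuous_infDist_pt T)).measurableSet
    have hcA : ∀ n : ℕ, Continuous (A ^ n) := fun n => LinearMap.continuous_of_finiteDimensional _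
    have hbound : ∀ n : ℕ, μ {x | ε ≤ Metric.infDist x T} ≤
        μ {x | ENNReal.ofReal ε ≤ edist ((A ^ n) (x - t₀)) 0} := by
      intro n
      rw [h.iter n _ hmeas]
      have h1 : ∀ w ∈ words B n, μ (tau A (cst d) w ⁻¹' {x | ε ≤ Metric.infDist x T}) ≤
          μ {x | ENNReal.ofReal ε ≤ edist ((A ^ n) (x - t₀)) 0} := by
        intro w hw
        apply measure_mono
        intro x hx
        rw [mem_words] at hw
        have h2 : Metric.infDist (tau A (cst d) w x) T ≤
            dist (tau A (cst d) w x) (tau A (cst d) w t₀) :=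
          Metric.infDist_le_dist_of_mem (h.mapsT hw.2 ht₀)
        have h3 : tau A (cst d) w x = tau A (cst d) w t₀ + (A ^ n) (x - t₀) := by
          rw [← hw.1, ← tau_add h.comp]
          congr 1
          abel
        have h4 : ε ≤ dist ((A ^ n) (x - t₀)) 0 := by
          refine (le_trans (mem_preimage.1 hx) h2).trans (le_of_eq ?_)
          rw [h3, dist_eq_norm, dist_zero_right, add_sub_cancel_left]
        rw [Set.mem_ofPred_eq, edist_dist]
        exact ENNReal.ofReal_le_ofReal h4
      calc _ ≤ ((B.card : ENNReal)⁻¹) ^ n * ∑ w ∈ words B n,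
            μ {x | ENNReal.ofReal ε ≤ edist ((A ^ n) (x - t₀)) 0} := by
            exact mul_le_mul' le_rfl (Finset.sum_le_sum h1)
        _ = _ := by
            rw [Finset.sum_const, card_words, nsmul_eq_mul, ← mul_assoc, Nat.cast_pow, ← mul_pow,
              h.cc, one_pow, one_mul]
    have htend : TendstoInMeasure μ (fun (n : ℕ) x => (A ^ n) (x - t₀)) atTop (fun _ => 0) := by
      apply tendstoInMeasure_of_tendsto_ae
      · intro n
        exact ((hcA n).comp (continuous_id.sub continuous_const)).aestronglyMeasurable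
      · exact Eventually.of_forall fun x => h.lim _
    have h5 := htend (ENNReal.ofReal ε) (by simpa using hε)
    exact le_antisymm (ge_of_tendsto' h5 hbound) (zero_le)
  have h6 : Tᶜ ⊆ ⋃ k : ℕ, {x | 1 / ((k : ℝ) + 1) ≤ Metric.infDist x T} := by
    intro x hx
    have h7 : 0 < Metric.infDist x T := (hclosed.notMem_iff_infDist_pos ⟨t₀, ht₀⟩).1 hx
    obtain ⟨k, hk⟩ := exists_nat_one_div_lt h7
    exact mem_iUnion.2 ⟨k, hk.le⟩
  exact measure_mono_null h6 (measure_iUnion_null fun k => key _ (by positivity))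

/-- There are no exact overlaps if the measure is spectral. -/
theorem Sys.distinct (h : Sys A Ri B μ T) (hs : IsSpectral μ) (n : ℕ) {w w' : List (Fin d → ℤ)}
    (hw : w ∈ words B n) (hw' : w' ∈ words B n) (hp : pos Ri w = pos Ri w') : w = w' := by
  have := h.prob
  by_contra hne
  -- a generic functional
  have hAn : ∀ k : ℕ, Function.Injective ⇑(A ^ k) := fun k => by
    rw [Module.End.coe_pow]
    exact h.inj.iterate k
  have hcinj : Function.Injective (cst d) := by
    intro x y hxy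
    funext i
    have h1 : ((x i : ℤ) : ℝ) = ((y i : ℤ) : ℝ) := congrFun hxy i
    exact_mod_cast h1
  let ι := {p : ℕ × ((Fin d → ℤ) × (Fin d → ℤ)) // p ∈ (Finset.Icc 1 n ×ˢ (B ×ˢ B)) ∧ p.2.1 ≠ p.2.2}
  have : Finite ι := by
    have : Finite {p : ℕ × ((Fin d → ℤ) × (Fin d → ℤ)) // p ∈ (Finset.Icc 1 n ×ˢ (B ×ˢ B))} :=
      Finset.finite_toSet _
    exact Finite.of_injective (β := {p : ℕ × ((Fin d → ℤ) × (Fin d → ℤ)) //
      p ∈ (Finset.Icc 1 n ×ˢ (B ×ˢ B))}) (fun p => ⟨p.1, p.2.1⟩) (by
        rintro ⟨p, hp⟩ ⟨p', hp'⟩ hpp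
        have h1 : p = p' := by simpa using hpp
        subst h1
        rfl)
  obtain ⟨ψ, hψ⟩ := Module.exists_dual_forall_apply_ne_zero (K := ℝ) (M := Fin d → ℝ)
    (fun p : ι => (A ^ p.1.1) (cst d p.1.2.1) - (A ^ p.1.1) (cst d p.1.2.2)) (by
      rintro ⟨p, hp, hpne⟩ h0
      exact hpne (hcinj (hAn _ (sub_eq_zero.1 h0))))
  obtain ⟨w₀, hw₀, hmax⟩ := exists_extreme (A := A) (c := cst d) (B := B) h.Bne n ψ (by
    intro k hk b hb b' hb' heq
    by_contra hbne
    refine hψ ⟨(k, (b, b')), ?_, hbne⟩ ?_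
    · simp only [Finset.mem_product]
      exact ⟨hk, hb, hb'⟩
    · simp only [map_sub]
      exact sub_eq_zero.2 heq)
  -- the gap
  obtain ⟨δ, hδ, hgap⟩ : ∃ δ : ℝ, 0 < δ ∧ ∀ v ∈ words B n, v ≠ w₀ →
      ψ (tau A (cst d) v 0) + δ ≤ ψ (tau A (cst d) w₀ 0) := by
    rcases ((words B n).erase w₀).eq_empty_or_nonempty with he | he
    · refine ⟨1, one_pos, fun v hv hv' => ?_⟩
      have : v ∈ (words B n).erase w₀ := Finset.mem_erase.2 ⟨hv', hv⟩
      rw [he] at this
      simp at this
    · obtain ⟨v₁, hv₁, hv₁'⟩ := ((words B n).erase w₀).exists_max_image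
        (fun v => ψ (tau A (cst d) v 0)) he
      rw [Finset.mem_erase] at hv₁
      refine ⟨ψ (tau A (cst d) w₀ 0) - ψ (tau A (cst d) v₁ 0),
        sub_pos.2 (hmax v₁ hv₁.2 hv₁.1), fun v hv hv' => ?_⟩
      have := hv₁' v (Finset.mem_erase.2 ⟨hv', hv⟩)
      linarith
  -- the level
  have hψc : Continuous ψ := LinearMap.continuous_of_finiteDimensional ψ
  have hAc : Continuous (A ^ n) := LinearMap.continuous_of_finiteDimensional _
  let f : (Fin d → ℝ) → ℝ := fun x => ψ ((A ^ n) x)
  have hf : Continuous f := hψc.comp hAc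
  obtain ⟨C, hC⟩ : ∃ C : ℝ, ∀ x ∈ T, f x ≤ C := by
    obtain ⟨C, hC⟩ := (h.compact.image hf).bddAbove
    exact ⟨C, fun x hx => hC (mem_image_of_mem _ hx)⟩
  have hex : ∃ k : ℕ, μ {x | C - k * δ < f x} ≠ 0 := by
    by_contra hcon
    push Not at hcon
    have h1 : (univ : Set (Fin d → ℝ)) ⊆ ⋃ k : ℕ, {x | C - k * δ < f x} := by
      intro x _
      obtain ⟨k, hk⟩ := exists_nat_gt ((C - f x) / δ)
      refine mem_iUnion.2 ⟨k, ?_⟩
      rw [div_lt_iff₀ hδ] at hk
      simp only [Set.mem_ofPred_eq]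
      linarith
    have h2 : μ univ = 0 := measure_mono_null h1 (measure_iUnion_null hcon)
    rw [measure_univ] at h2
    exact one_ne_zero h2
  classical
  let k := Nat.find hex
  have hk : μ {x | C - k * δ < f x} ≠ 0 := Nat.find_spec hex
  have hk0 : k ≠ 0 := by
    intro h0
    rw [h0] at hk
    apply hk
    refine measure_mono_null (fun x hx => ?_) h.full
    intro hxT
    have := hC x hxT
    simp only [Set.mem_ofPred_eq, Nat.cast_zero, zero_mul, sub_zero] at hx
    linarith
  set lev : ℝ := C - k * δ with hlev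
  have hlev' : μ {x | lev + δ < f x} = 0 := by
    have h1 : k - 1 < k := by omega
    have h2 := Nat.find_min hex h1
    push Not at h2
    have h3 : C - ((k - 1 : ℕ) : ℝ) * δ = lev + δ := by
      rw [hlev, Nat.cast_sub (by omega)]
      push_cast
      ring
    rwa [h3] at h2
  -- the open set
  set U : Set (Fin d → ℝ) := {x | lev + ψ (tau A (cst d) w₀ 0) < ψ x} with hU
  have hUm : MeasurableSet U := (isOpen_lt continuous_const hψc).measurableSet
  have hval : ∀ v ∈ words B n, ∀ x, ψ (tau A (cst d) v x) = f x + ψ (tau A (cst d) v 0) := by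
    intro v hv x
    have h1 := tau_add (A := A) (c := cst d) h.comp v 0 x
    rw [zero_add] at h1
    rw [h1, map_add, add_comm, ((mem_words B).1 hv).1]
  have hother : ∀ v ∈ words B n, v ≠ w₀ → μ (tau A (cst d) v ⁻¹' U) = 0 := by
    intro v hv hvne
    refine measure_mono_null (fun x hx => ?_) hlev'
    have h1 : lev + ψ (tau A (cst d) w₀ 0) < ψ (tau A (cst d) v x) := hx
    rw [hval v hv x] at h1
    have h2 := hgap v hv hvne
    simp only [Set.mem_ofPred_eq]
    linarith
  have hself : tau A (cst d) w₀ ⁻¹' U = {x | lev < f x} := by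
    ext x
    simp only [hU, mem_preimage, Set.mem_ofPred_eq]
    rw [hval w₀ hw₀ x]
    constructor
    · intro h1
      linarith
    · intro h1
      linarith
  have hmass : ∀ s, MeasurableSet s → μ (U ∩ s) =
      ((B.card : ENNReal)⁻¹) ^ n * μ (tau A (cst d) w₀ ⁻¹' (U ∩ s)) := by
    intro s hs'
    rw [h.iter n _ (hUm.inter hs')]
    congr 1
    rw [Finset.sum_eq_single_of_mem w₀ hw₀]
    intro v hv hvne
    exact measure_mono_null (preimage_mono inter_subset_left) (hother v hv hvne)
  have hUpos : μ U ≠ 0 := by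
    have h1 := hmass univ MeasurableSet.univ
    rw [inter_univ, hself] at h1
    rw [h1]
    refine mul_ne_zero (pow_ne_zero _ ?_) hk
    exact ENNReal.inv_ne_zero.2 (ENNReal.natCast_ne_top _)
  apply hUpos
  refine uniform μ hs U hUm (tau A (cst d) w 0 - tau A (cst d) w₀ 0) ?_
  intro s hs'
  set a := tau A (cst d) w 0 - tau A (cst d) w₀ 0 with ha
  have hma : Measurable (fun x : Fin d → ℝ => x + a) := measurable_id.add_const a
  rw [hmass _ (hma hs'), h.iter n s hs', ← mul_assoc, mul_comm 2, mul_assoc]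
  gcongr
  have hlen := ((mem_words B).1 hw).1
  have hlen' := ((mem_words B).1 hw').1
  have htw : tau A (cst d) w = tau A (cst d) w' := tau_eq_of_pos h.comp (hlen.trans hlen'.symm) hp
  have hsub : μ (tau A (cst d) w₀ ⁻¹' (U ∩ (fun x => x + a) ⁻¹' s)) ≤
      μ (tau A (cst d) w ⁻¹' s) := by
    apply measure_mono
    intro x hx
    have h1 : tau A (cst d) w₀ x + a ∈ s := hx.2
    have h2 : tau A (cst d) w₀ x + a = tau A (cst d) w x := by
      have e1 := tau_add (A := A) (c := cst d) h.comp w₀ 0 x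
      have e2 := tau_add (A := A) (c := cst d) h.comp w 0 x
      rw [zero_add] at e1 e2
      rw [e1, e2, ((mem_words B).1 hw₀).1, hlen, ha]
      abel
    rw [h2] at h1
    exact h1
  calc 2 * μ (tau A (cst d) w₀ ⁻¹' (U ∩ (fun x => x + a) ⁻¹' s))
      ≤ 2 * μ (tau A (cst d) w ⁻¹' s) := by gcongr
    _ = ∑ v ∈ ({w, w'} : Finset (List (Fin d → ℤ))), μ (tau A (cst d) v ⁻¹' s) := by
        rw [Finset.sum_pair hne, ← htw, two_mul]
    _ ≤ ∑ v ∈ words B n, μ (tau A (cst d) v ⁻¹' s) := by
        apply Finset.sum_le_sum_of_subset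
        intro v hv
        rw [Finset.mem_insert, Finset.mem_singleton] at hv
        rcases hv with rfl | rfl
        · exact hw
        · exact hw'

end

end Pool.Agent.W5h51.SO
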