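import Mathlib

set_option autoImplicit false
set_option linter.unusedSectionVars false

open Filter Topology Set

namespace Pool.Agent.W5h51.SO

variable {E L : Type*} [AddCommGroup E] [Module ℝ E] [AddCommGroup L] [DecidableEq L]
  (A : E →ₗ[ℝ] E) (c : L →+ E) (Ri : L →+ L) (B : Finset L)

/-- the composition of the maps `x ↦ A (x + b)` along a word -/
def tau : List L → E → E
  | [] => id
  | b :: w => fun x => A (tau w x + c b)

/-- the integer position of a word -/
def pos : List L → L
  | [] => 0
  | b :: w => Ri^[w.length] b + pos w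

/-- the words of length `n` -/
def words : ℕ → Finset (List L)
  | 0 => {[]}
  | n + 1 => (B ×ˢ words n).image fun p => p.1 :: p.2

@[simp] theorem tau_nil (x : E) : tau A c [] x = x := rfl

@[simp] theorem tau_cons (b : L) (w : List L) (x : E) :
    tau A c (b :: w) x = A (tau A c w x + c b) := rfl

theorem tau_append (v w : List L) (x : E) : tau A c (v ++ w) x = tau A c v (tau A c w x) := by
  induction v with
  | nil => rfl
  | cons b v ih => simp only [List.cons_append, tau_cons, ih]

theorem mem_words {n : ℕ} {w : List L} : w ∈ words B n ↔ w.length = n ∧ ∀ b ∈ w, b ∈ B := by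
  induction n generalizing w with
  | zero =>
    simp only [words, Finset.mem_singleton, List.length_eq_zero_iff]
    constructor
    · rintro rfl
      simp
    · rintro ⟨h, -⟩
      exact h
  | succ n ih =>
    simp only [words, Finset.mem_image, Finset.mem_product, Prod.exists, ih]
    constructor
    · rintro ⟨b, w', ⟨hb, hw1, hw2⟩, rfl⟩
      refine ⟨by simp [hw1], ?_⟩
      intro b' hb'
      rcases List.mem_cons.1 hb' with rfl | hb'
      · exact hb
      · exact hw2 _ hb'
    · rintro ⟨h1, h2⟩
      cases w with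
      | nil => simp at h1
      | cons b w' =>
        refine ⟨b, w', ⟨h2 _ (by simp), by simpa using h1, fun b' hb' => h2 _ (by simp [hb'])⟩, rfl⟩

theorem cons_mem_words {n : ℕ} {b : L} {w : List L} (hb : b ∈ B) (hw : w ∈ words B n) :
    b :: w ∈ words B (n + 1) := by
  rw [mem_words] at hw ⊢
  refine ⟨by simp [hw.1], fun b' hb' => ?_⟩
  rcases List.mem_cons.1 hb' with rfl | h
  · exact hb
  · exact hw.2 _ h

theorem append_mem_words {m n : ℕ} {v w : List L} (hv : v ∈ words B m) (hw : w ∈ words B n) :
    v ++ w ∈ words B (m + n) := by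
  rw [mem_words] at hv hw ⊢
  refine ⟨by simp [hv.1, hw.1], fun b hb => ?_⟩
  rcases List.mem_append.1 hb with h | h
  · exact hv.2 _ h
  · exact hw.2 _ h

theorem card_words (n : ℕ) : (words B n).card = B.card ^ n := by
  induction n with
  | zero => simp [words]
  | succ n ih =>
    rw [words, Finset.card_image_of_injective, Finset.card_product, ih, pow_succ, mul_comm]
    rintro ⟨a, w⟩ ⟨a', w'⟩ h
    simpa using h

theorem sum_words_succ {M : Type*} [AddCommMonoid M] (n : ℕ) (f : List L → M) :
    ∑ w ∈ words B (n + 1), f w = ∑ b ∈ B, ∑ w ∈ words B n, f (b :: w) := by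
  rw [words, Finset.sum_image, Finset.sum_product]
  rintro ⟨a, w⟩ - ⟨a', w'⟩ - h
  simpa using h

theorem pos_append (v w : List L) : pos Ri (v ++ w) = Ri^[w.length] (pos Ri v) + pos Ri w := by
  induction v with
  | nil =>
    simp only [List.nil_append, pos]
    rw [iterate_map_zero, zero_add]
  | cons b v ih =>
    simp only [List.cons_append, pos, List.length_append, ih]
    rw [iterate_map_add, ← Function.iterate_add_apply, add_comm v.length w.length, add_assoc]

variable {A c Ri}

theorem pow_c (hA : ∀ z, A (c (Ri z)) = c z) (n : ℕ) (z : L) : (A ^ n) (c (Ri^[n] z)) = c z := by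
  induction n generalizing z with
  | zero => rfl
  | succ n ih =>
    rw [pow_succ, Module.End.mul_apply, Function.iterate_succ', Function.comp, hA]
    exact ih z

theorem tau_eq (hA : ∀ z, A (c (Ri z)) = c z) (w : List L) (x : E) :
    tau A c w x = (A ^ w.length) (x + c (pos Ri w)) := by
  induction w with
  | nil => simp [pos]
  | cons b w ih =>
    rw [tau_cons, ih, List.length_cons, pow_succ', Module.End.mul_apply, pos, map_add c,
      ← add_assoc, add_right_comm, map_add (A ^ w.length) (x + _), pow_c hA]

theorem tau_add (hA : ∀ z, A (c (Ri z)) = c z) (w : List L) (x y : E) :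
    tau A c w (x + y) = tau A c w x + (A ^ w.length) y := by
  rw [tau_eq hA, tau_eq hA, add_right_comm, map_add]

theorem tau_eq_of_pos {w w' : List L} (hA : ∀ z, A (c (Ri z)) = c z) (h : w.length = w'.length)
    (h' : pos Ri w = pos Ri w') : tau A c w = tau A c w' := by
  funext x
  rw [tau_eq hA, tau_eq hA, h, h']

/-- For a generic functional there is a unique extreme word. -/
theorem exists_extreme (hne : B.Nonempty) (n : ℕ) (ψ : E →ₗ[ℝ] ℝ)
    (hψ : ∀ k ∈ Finset.Icc 1 n, ∀ b ∈ B, ∀ b' ∈ B, ψ ((A ^ k) (c b)) = ψ ((A ^ k) (c b')) → b = b') :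
    ∃ w₀ ∈ words B n, ∀ w ∈ words B n, w ≠ w₀ → ψ (tau A c w 0) < ψ (tau A c w₀ 0) := by
  induction n generalizing ψ with
  | zero => exact ⟨[], by simp [words], fun w hw hne => absurd (by simpa [words] using hw) hne⟩
  | succ n ih =>
    obtain ⟨w₀, h1, h2⟩ := ih (ψ ∘ₗ A) (by
      intro k hk b hb b' hb' h
      refine hψ (k + 1) ?_ b hb b' hb' ?_
      · rw [Finset.mem_Icc] at hk ⊢
        omega
      · simp only [pow_succ', Module.End.mul_apply]
        exact h)
    obtain ⟨b₀, hb₀, hmax⟩ := B.exists_max_image (fun b => ψ (A (c b))) hne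
    refine ⟨b₀ :: w₀, cons_mem_words B hb₀ h1, ?_⟩
    intro w hw hne'
    rw [words, Finset.mem_image] at hw
    obtain ⟨⟨b, w'⟩, hbw, rfl⟩ := hw
    rw [Finset.mem_product] at hbw
    simp only [tau_cons, map_add]
    have h3 : ψ (A (tau A c w' 0)) ≤ ψ (A (tau A c w₀ 0)) := by
      by_cases hw' : w' = w₀
      · rw [hw']
      · exact (h2 w' hbw.2 hw').le
    have h4 : ψ (A (c b)) ≤ ψ (A (c b₀)) := hmax b hbw.1
    by_cases hw' : w' = w₀
    · have hb : b ≠ b₀ := by
        rintro rfl
        exact hne' (by rw [hw'])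
      have h5 : ψ (A (c b)) ≠ ψ (A (c b₀)) := by
        intro h
        apply hb
        refine hψ 1 ?_ b hbw.1 b₀ hb₀ (by simpa using h)
        rw [Finset.mem_Icc]
        omega
      have h6 := lt_of_le_of_ne h4 h5
      linarith
    · have h5 := h2 w' hbw.2 hw'
      simp only [LinearMap.comp_apply] at h5
      linarith

end Pool.Agent.W5h51.SO
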